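import Pool.Agent.Q78.WI.Stm

/-! WI-TD1: fundamental theorem of calculus identity. -/

set_option autoImplicit false

open MeasureTheory ProbabilityTheory Filter Topology Set
open scoped NNReal InnerProductSpace Matrix

namespace Pool.Agent.Q164.WI

open Pool.Agent.Q78.WI

theorem td1 : S_TD1 := by
  intro R a c hd hc s t hs hst htR
  have ht0 : 0 ≤ t := hs.trans hst
  have hsR : s ≤ R := hst.trans htR
  have hR0 : 0 ≤ R := hs.trans hsR
  have hcs : ContinuousOn (fun r => c s r) (Icc 0 R) := by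
    have h1 : ContinuousOn (fun r : ℝ => ((s, r) : ℝ × ℝ)) (Icc 0 R) := by fun_prop
    exact hc.comp h1 (fun r hr => ⟨⟨hs, hsR⟩, hr⟩)
  have hct : ContinuousOn (fun r => c r t) (Icc 0 R) := by
    have h1 : ContinuousOn (fun r : ℝ => ((r, t) : ℝ × ℝ)) (Icc 0 R) := by fun_prop
    exact hc.comp h1 (fun r hr => ⟨hr, ⟨ht0, htR⟩⟩)
  have ii : ∀ f : ℝ → ℝ, ContinuousOn f (Icc 0 R) → ∀ x y, x ∈ Icc 0 R → y ∈ Icc 0 R →
      IntervalIntegrable f volume x y := fun f hf x y hx hy =>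
    (hf.mono (uIcc_subset_Icc hx hy)).intervalIntegrable
  have m0 : (0 : ℝ) ∈ Icc 0 R := ⟨le_rfl, hR0⟩
  have ms : s ∈ Icc 0 R := ⟨hs, hsR⟩
  have mt : t ∈ Icc 0 R := ⟨ht0, htR⟩
  have e1 : ∫ r in s..t, -(c r t) = a t t - a s t := by
    apply intervalIntegral.integral_eq_sub_of_hasDerivAt_of_le (f := fun r => a r t) hst
    · intro x hx
      exact ((hd t mt x ⟨hs.trans hx.1, hx.2.trans htR⟩).continuousWithinAt).mono
        (Icc_subset_Icc hs htR)
    · intro x hx
      exact (hd t mt x ⟨hs.trans hx.1.le, hx.2.le.trans htR⟩).hasDerivAt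
        (Icc_mem_nhds (hs.trans_lt hx.1) (hx.2.trans_le htR))
    · exact (ii _ hct s t ms mt).neg
  have e2 : ∫ r in (0 : ℝ)..s, c s r = (∫ r in (0 : ℝ)..t, c s r) - ∫ r in s..t, c s r := by
    rw [← intervalIntegral.integral_add_adjacent_intervals (ii _ hcs 0 s m0 ms)
      (ii _ hcs s t ms mt)]
    ring
  have e3 : ∫ r in s..t, (c s r - c r t) = (∫ r in s..t, c s r) - ∫ r in s..t, c r t :=
    intervalIntegral.integral_sub (ii _ hcs s t ms mt) (ii _ hct s t ms mt)
  rw [intervalIntegral.integral_neg] at e1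
  rw [e2, e3]
  linarith

end Pool.Agent.Q164.WI
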