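import Pool.Agent.Q78.WI.Stm

/-! WI-TD2: one step. -/

set_option autoImplicit false

open MeasureTheory ProbabilityTheory Filter Topology Set
open scoped NNReal InnerProductSpace Matrix

namespace Pool.Agent.Q164.WI

open Pool.Agent.Q78.WI

universe v

theorem td2 (h1 : S_TD1) : S_TD2.{v} := by
  intro Ω mΩ P _ ℱ τ R B C a c h s t hst htR
  have hsR : s ≤ R := hst.trans htR
  set M : ℝ≥0 → Ω → ℝ := fun t ω => a s ((min t (τ ω) : ℝ≥0) : ℝ) ω
    - ∫ r in (0 : ℝ)..((min t (τ ω) : ℝ≥0) : ℝ), c s r ω with hM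
  have hmart : Martingale M ℱ P := h.mart s hsR
  set A : Set Ω := {ω | τ ω ≤ s}ᶜ with hA
  have hAm : MeasurableSet[ℱ s] A := (h.stop s).compl
  have hAm' : MeasurableSet A := ℱ.le s _ hAm
  have hint : ∀ u : ℝ≥0, u ≤ R →
      Integrable (fun ω => a ((min u (τ ω) : ℝ≥0) : ℝ) ((min u (τ ω) : ℝ≥0) : ℝ) ω) P := by
    intro u hu
    refine Integrable.of_bound (h.meas u hu).aestronglyMeasurable B ?_
    refine Eventually.of_forall fun ω => ?_
    have hm : ((min u (τ ω) : ℝ≥0) : ℝ) ∈ Icc (0 : ℝ) R :=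
      ⟨NNReal.coe_nonneg _, by exact_mod_cast (min_le_left _ _).trans hu⟩
    exact h.bdda ω _ hm _ hm
  have hMt : Integrable (M t) P := hmart.integrable t
  have hMs : Integrable (M s) P := hmart.integrable s
  have hkey : ∀ ω, J (τ ω) (fun x y => c x y ω) s t =
      a ((min t (τ ω) : ℝ≥0) : ℝ) ((min t (τ ω) : ℝ≥0) : ℝ) ω
        - a ((min s (τ ω) : ℝ≥0) : ℝ) ((min s (τ ω) : ℝ≥0) : ℝ) ω
        - A.indicator (fun ω => M t ω - M s ω) ω := by
    intro ω
    by_cases hω : τ ω ≤ s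
    · have hn : ω ∉ A := fun hh => hh hω
      have hlt : ¬ ((s : ℝ) < (τ ω : ℝ)) := not_lt.2 (by exact_mod_cast hω)
      rw [indicator_of_notMem hn, min_eq_right hω, min_eq_right (hω.trans hst)]
      unfold J
      rw [if_neg hlt]
      ring
    · have hm : ω ∈ A := hω
      push Not at hω
      have hlt : (s : ℝ) < (τ ω : ℝ) := by exact_mod_cast hω
      rw [indicator_of_mem hm, min_eq_left hω.le]
      have hT := h1 R (fun x y => a x y ω) (fun x y => c x y ω) (h.deriv ω) (h.cont ω)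
        s ((min t (τ ω) : ℝ≥0) : ℝ) (NNReal.coe_nonneg _)
        (by exact_mod_cast le_min hst hω.le)
        (by exact_mod_cast (min_le_left _ _).trans htR)
      have hJ : J (τ ω) (fun x y => c x y ω) s t =
          ∫ r in (s : ℝ)..((min t (τ ω) : ℝ≥0) : ℝ),
            (c s r ω - c r ((min t (τ ω) : ℝ≥0) : ℝ) ω) := by
        unfold J
        rw [if_pos hlt, NNReal.coe_min]
      rw [hJ]
      simp only [hM]
      rw [min_eq_left hω.le]
      linarith
  have hI : Integrable (A.indicator fun ω => M t ω - M s ω) P := (hMt.sub hMs).indicator hAm'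
  have hzero : ∫ ω, A.indicator (fun ω => M t ω - M s ω) ω ∂P = 0 := by
    rw [integral_indicator hAm', integral_sub hMt.integrableOn hMs.integrableOn]
    rw [hmart.setIntegral_eq hst hAm, sub_self]
  have hfun : (fun ω => J (τ ω) (fun x y => c x y ω) s t) = fun ω =>
      a ((min t (τ ω) : ℝ≥0) : ℝ) ((min t (τ ω) : ℝ≥0) : ℝ) ω
        - a ((min s (τ ω) : ℝ≥0) : ℝ) ((min s (τ ω) : ℝ≥0) : ℝ) ω
        - A.indicator (fun ω => M t ω - M s ω) ω := funext hkey
  constructor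
  · rw [hfun]
    exact ((hint t htR).sub (hint s hsR)).sub hI
  · have e1 : ∫ ω, (a ((min t (τ ω) : ℝ≥0) : ℝ) ((min t (τ ω) : ℝ≥0) : ℝ) ω
        - a ((min s (τ ω) : ℝ≥0) : ℝ) ((min s (τ ω) : ℝ≥0) : ℝ) ω
        - A.indicator (fun ω => M t ω - M s ω) ω) ∂P =
        ∫ ω, (a ((min t (τ ω) : ℝ≥0) : ℝ) ((min t (τ ω) : ℝ≥0) : ℝ) ω
        - a ((min s (τ ω) : ℝ≥0) : ℝ) ((min s (τ ω) : ℝ≥0) : ℝ) ω) ∂P
        - ∫ ω, A.indicator (fun ω => M t ω - M s ω) ω ∂P :=
      integral_sub ((hint t htR).sub (hint s hsR)) hI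
    rw [hfun, e1, hzero, sub_zero, integral_sub (hint t htR) (hint s hsR)]

end Pool.Agent.Q164.WI
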